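import Mathlib
import Pool.Agent.H10.Iso

set_option autoImplicit false

namespace Pool.Agent.Results.MP_c850b7_lc.NotIso

open FirstOrder FirstOrder.Language

lemma tr (k l : ℤ) (n : ℕ) (a : Fin n → H10.Iso.H k) : ∃ b : Fin n → H10.Iso.H l,
    ∀ φ : H10.Iso.L.Formula (Fin n), φ.Realize a ↔ φ.Realize b := by
  obtain ⟨b, hb⟩ := H10.Iso.down l fun i => (a i).1
  exact ⟨b, fun φ => (H10.Iso.elem k a φ).symm.trans (hb φ)⟩

theorem result : ∃ L : FirstOrder.Language.{0, 0}, L.IsAlgebraic ∧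
    ∃ (A B : Type) (_ : L.Structure A) (_ : L.Structure B), Nonempty A ∧ Nonempty B ∧
      Structure.FG L A ∧ Structure.FG L B ∧
      (∀ (n : ℕ) (a : Fin n → A), ∃ b : Fin n → B,
        ∀ φ : L.Formula (Fin n), φ.Realize a ↔ φ.Realize b) ∧
      (∀ (n : ℕ) (b : Fin n → B), ∃ a : Fin n → A,
        ∀ φ : L.Formula (Fin n), φ.Realize b ↔ φ.Realize a) ∧
      IsEmpty (A ≃[L] B) :=
  ⟨H10.Iso.L, inferInstance, H10.Iso.H 0, H10.Iso.H 1, inferInstance, inferInstance,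
    ⟨⟨(0, []), le_rfl⟩⟩, ⟨⟨(1, []), le_rfl⟩⟩, H10.Iso.fg 0, H10.Iso.fg 1, tr 0 1, tr 1 0,
    H10.Iso.not_iso⟩

end Pool.Agent.Results.MP_c850b7_lc.NotIso
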